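import Pool.Agent.Helper86.Poly.Goals

set_option autoImplicit false

namespace Pool.Agent.Helper48.Poly

open Pool.Agent.Helper86.Poly MeasureTheory Set

open scoped RealInnerProductSpace

/-- vectors in `E b` with the Gram matrix of the regular simplex -/
lemma exists_gram (b : ℕ) : ∃ s : Fin (b + 1) → E b, ∀ i j,
    ⟪s i, s j⟫ = (1 / 2 : ℝ) * ((if i = j then 1 else 0) - 1 / ((b : ℝ) + 1)) := by
  classical
  let F := EuclideanSpace ℝ (Fin (b + 1))
  have : Fact (Module.finrank ℝ F = b + 1) := ⟨by simp [F]⟩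
  let u : F := WithLp.toLp 2 (fun _ => (1 : ℝ))
  have hu : u ≠ 0 := by
    intro h
    have := congrArg (fun v : F => v 0) h
    simp [u] at this
  have hb : ((b : ℝ) + 1) ≠ 0 := by positivity
  let v : Fin (b + 1) → F := fun i =>
    (1 / Real.sqrt 2) • (EuclideanSpace.single i (1 : ℝ) - (1 / ((b : ℝ) + 1)) • u)
  have huu : ⟪u, u⟫ = (b : ℝ) + 1 := by
    rw [real_inner_self_eq_norm_sq, EuclideanSpace.norm_sq_eq]
    simp [u]
  have hue : ∀ i, ⟪u, EuclideanSpace.single i (1 : ℝ)⟫ = (1 : ℝ) := by
    intro i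
    rw [EuclideanSpace.inner_single_right]
    simp [u]
  have heu : ∀ i, ⟪(EuclideanSpace.single i (1 : ℝ) : F), u⟫ = (1 : ℝ) := by
    intro i
    rw [real_inner_comm]
    exact hue i
  have hee : ∀ i j, ⟪(EuclideanSpace.single i (1 : ℝ) : F), EuclideanSpace.single j (1 : ℝ)⟫ =
      (if i = j then (1 : ℝ) else 0) := by
    intro i j
    rw [EuclideanSpace.inner_single_left]
    simp
  have hvmem : ∀ i, v i ∈ (Submodule.span ℝ {u})ᗮ := by
    intro i
    rw [Submodule.mem_orthogonal_singleton_iff_inner_right]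
    simp only [v]
    rw [inner_smul_right, inner_sub_right, inner_smul_right, huu, hue]
    field_simp
    ring
  have h2 : Real.sqrt 2 * Real.sqrt 2 = 2 := Real.mul_self_sqrt (by norm_num)
  have h20 : Real.sqrt 2 ≠ 0 := by positivity
  have hvv : ∀ i j, ⟪v i, v j⟫ = (1 / 2 : ℝ) * ((if i = j then 1 else 0) - 1 / ((b : ℝ) + 1)) := by
    intro i j
    simp only [v]
    rw [real_inner_smul_left, real_inner_smul_right, inner_sub_left, inner_sub_right, inner_sub_right,
      real_inner_smul_left, real_inner_smul_left, real_inner_smul_right, real_inner_smul_right,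
      huu, hue, heu, hee]
    have h3 : (1 / Real.sqrt 2) * (1 / Real.sqrt 2) = 1 / 2 := by
      field_simp
      nlinarith
    rw [← mul_assoc, h3]
    congr 1
    field_simp
    ring
  let B := OrthonormalBasis.fromOrthogonalSpanSingleton (𝕜 := ℝ) b hu
  refine ⟨fun i => B.repr ⟨v i, hvmem i⟩, fun i j => ?_⟩
  rw [LinearIsometryEquiv.inner_map_map]
  exact hvv i j


theorem PkRS.thm (hSV : G_SV) : G_RS := by
  classical
  intro b
  obtain ⟨s, hs⟩ := exists_gram b
  have hb : ((b : ℝ) + 1) ≠ 0 := by positivity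
  have hb0 : (0 : ℝ) < (b : ℝ) + 1 := by positivity
  -- norms
  have hnorm : ∀ i, ‖s i‖ ^ 2 = b / (2 * (b + 1)) := by
    intro i
    rw [← real_inner_self_eq_norm_sq, hs, if_pos rfl]
    field_simp
    ring
  -- distances
  have hdist : ∀ i j, i ≠ j → dist (s i) (s j) = 1 := by
    intro i j hij
    have h1 : dist (s i) (s j) ^ 2 = 1 := by
      rw [dist_eq_norm, @norm_sub_sq_real, hs, if_neg hij, hnorm, hnorm]
      field_simp
      ring
    have h2 : 0 ≤ dist (s i) (s j) := dist_nonneg
    nlinarith
  -- sum zero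
  have hsum : ∑ i, s i = 0 := by
    have h1 : ⟪∑ i, s i, ∑ i, s i⟫ = (0 : ℝ) := by
      rw [sum_inner]
      simp_rw [inner_sum, hs]
      simp only [← Finset.mul_sum, Finset.sum_sub_distrib, Finset.sum_ite_eq, Finset.mem_univ, if_true,
        Finset.sum_const, Finset.card_univ, Fintype.card_fin, nsmul_eq_mul]
      push_cast
      field_simp
      ring
    exact inner_self_eq_zero.mp h1
  -- affine independence
  have hai : AffineIndependent ℝ s := by
    rw [affineIndependent_iff_of_fintype]
    intro w hw hw2 j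
    rw [Finset.weightedVSub_eq_weightedVSubOfPoint_of_sum_eq_zero _ _ _ hw (0 : E b)] at hw2
    simp only [Finset.weightedVSubOfPoint_apply, vsub_eq_sub, sub_zero] at hw2
    have h1 : ⟪∑ i, w i • s i, s j⟫ = (0 : ℝ) := by rw [hw2, inner_zero_left]
    rw [sum_inner] at h1
    simp_rw [real_inner_smul_left, hs] at h1
    have h3 : ∑ x, w x * ((1 / 2 : ℝ) * ((if x = j then 1 else 0) - 1 / ((b : ℝ) + 1))) =
        (1 / 2 : ℝ) * w j - (1 / 2 : ℝ) * (1 / ((b : ℝ) + 1)) * ∑ x, w x := by
      rw [Finset.mul_sum]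
      have : ∀ x, w x * ((1 / 2 : ℝ) * ((if x = j then 1 else 0) - 1 / ((b : ℝ) + 1))) =
          (if x = j then (1 / 2 : ℝ) * w x else 0) - (1 / 2 : ℝ) * (1 / ((b : ℝ) + 1)) * w x := by
        intro x
        split_ifs <;> ring
      simp_rw [this]
      rw [Finset.sum_sub_distrib]
      simp
    rw [h3, hw] at h1
    linarith
  have htot : affineSpan ℝ (Set.range s) = ⊤ := by
    rw [hai.affineSpan_eq_top_iff_card_eq_finrank_add_one]
    simp [E]
  -- interior
  have hint : (0 : E b) ∈ interior (convexHull ℝ (range s)) := by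
    let A : AffineBasis (Fin (b + 1)) ℝ (E b) := ⟨s, hai, htot⟩
    have h1 := A.centroid_mem_interior_convexHull
    have h2 : Finset.univ.centroid ℝ A = (0 : E b) := by
      rw [Finset.centroid_def, Finset.affineCombination_eq_linear_combination]
      · simp only [Finset.centroidWeights_apply]
        rw [← Finset.smul_sum]
        change _ • ∑ i, s i = 0
        rw [hsum, smul_zero]
      · exact Finset.sum_centroidWeights_eq_one_of_nonempty ℝ _ Finset.univ_nonempty
    rw [h2] at h1
    exact h1
  refine ⟨s, hdist, hsum, hnorm, hint, ?_⟩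
  -- volume
  have hv := hSV b s
  have hv2 : (b.factorial : ℝ) * (volume (convexHull ℝ (range s))).toReal =
      |Matrix.det (Matrix.of fun i j : Fin b => s i.succ j - s 0 j)| := by
    have := congrArg ENNReal.toReal hv
    rw [ENNReal.toReal_mul, ENNReal.toReal_natCast, ENNReal.toReal_ofReal (abs_nonneg _)] at this
    exact this
  rw [hv2, sq_abs]
  set M : Matrix (Fin b) (Fin b) ℝ := Matrix.of fun i j : Fin b => s i.succ j - s 0 j with hM
  have h1 : M.det ^ 2 = (M * M.transpose).det := by
    rw [Matrix.det_mul, Matrix.det_transpose, sq]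
  have h2 : M * M.transpose = (1 / 2 : ℝ) •
      (1 + Matrix.replicateCol Unit (fun _ : Fin b => (1 : ℝ)) * Matrix.replicateRow Unit (fun _ : Fin b => (1 : ℝ))) := by
    ext i j
    have e1 : (M * M.transpose) i j = ⟪s i.succ - s 0, s j.succ - s 0⟫ := by
      rw [Matrix.mul_apply, PiLp.inner_apply]
      apply Finset.sum_congr rfl
      intro k _
      simp [M, mul_comm]
    rw [e1, inner_sub_left, inner_sub_right, inner_sub_right, hs, hs, hs, hs]
    rw [if_neg (Fin.succ_ne_zero i), if_neg (Fin.succ_ne_zero j).symm, if_pos rfl]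
    simp only [Matrix.smul_apply, Matrix.add_apply, Matrix.mul_apply, Matrix.replicateCol_apply,
      Matrix.replicateRow_apply, Finset.univ_unique, Finset.sum_const, Finset.card_singleton, one_smul,
      smul_eq_mul, Matrix.one_apply, Fin.succ_inj]
    ring
  rw [h1, h2, Matrix.det_smul, Matrix.det_one_add_replicateCol_mul_replicateRow]
  simp only [Fintype.card_fin, dotProduct, mul_one, Finset.sum_const, Finset.card_univ, nsmul_eq_mul]
  rw [one_div, inv_pow]
  field_simp
  ring

end Pool.Agent.Helper48.Poly
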